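import Mathlib

set_option autoImplicit false

/-! The shifted generating function identity for continuous dual `q`-Hahn polynomials fails
already for `n = 1`, for every `q` and all `a, b, c` with `abc ≠ 0`. -/

open PowerSeries

namespace Pool.Agent.Results.MP_93f727_an.Fails

section
variable {R : Type} [CommRing R]

/-- the `q`-Pochhammer symbol `(α;q)_n` -/
def poch (q al : R) (n : ℕ) : R := ∏ j ∈ Finset.range n, (1 - al * q ^ j)

/-- the coefficient `d_n` -/
def dd (q a b c : R) : ℕ → R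
  | 0 => a + b + c - a * b * c
  | n + 1 => (a + b + c) * q ^ (n + 1) + a * b * c * q ^ n * (1 - q ^ (n + 1) - q ^ (n + 2))

/-- the coefficient `f_n` -/
def ff (q a b c : R) (n : ℕ) : R :=
  (1 - a * b * q ^ n) * (1 - a * c * q ^ n) * (1 - b * c * q ^ n)

/-- continuous dual `q`-Hahn polynomials `ψ_n(x|a,b,c,q)` by their three-term recurrence -/
def psi (q x a b c : R) : ℕ → R
  | 0 => 1
  | 1 => 2 * x - dd q a b c 0
  | n + 2 => (2 * x - dd q a b c (n + 1)) * psi q x a b c (n + 1) -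
      (1 - q ^ (n + 1)) * ff q a b c n * psi q x a b c n

end

/-- the `q`-binomial coefficient -/
noncomputable def qbinom (q : ℝ) (n i : ℕ) : ℝ := poch q q n / (poch q q i * poch q q (n - i))

/-- the `i`-th summand of the Askey-Wilson polynomial `AW_n(x|a,b,c,t,q)` whose fourth parameter
is the formal variable `t = X` (for `i < n` the index `n + i - 1` is a natural number; for
`i = n` the denominator is the empty product `1`) -/
noncomputable def awTerm (q x a b c : ℝ) (n i : ℕ) : ℝ⟦X⟧ :=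
  C (qbinom q n i * (-a) ^ (n - i) * q ^ ((n - i).choose 2)) *
    (poch (C q) (C b * C c * C q ^ i) (n - i) * poch (C q) (C b * X * C q ^ i) (n - i) *
      poch (C q) (C c * X * C q ^ i) (n - i)) *
    (poch (C q) (C a * C b * C c * X * C q ^ (n + i - 1)) (n - i))⁻¹ *
    psi (C q) (C x) (C b) (C c) X i

/-- the Askey-Wilson polynomial `AW_n(x|a,b,c,t,q)` as a formal power series in `t` -/
noncomputable def AW (q x a b c : ℝ) (n : ℕ) : ℝ⟦X⟧ :=
  ∑ i ∈ Finset.range (n + 1), awTerm q x a b c n i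

/-- `G_n(t) = ∑ t^i/(q;q)_i ψ_{i+n}(x|a,b,c,q)` -/
noncomputable def G (q x a b c : ℝ) (n : ℕ) : ℝ⟦X⟧ :=
  PowerSeries.mk fun i => psi q x a b c (i + n) / poch q q i

/-- the identity of Q1 for one `n`, at the point `x` -/
def Identity (q x a b c : ℝ) (n : ℕ) : Prop :=
  G q x a b c n = AW q x a b c n * (poch (C q) (C a * X) n * poch (C q) (C b * X) n *
    poch (C q) (C c * X) n)⁻¹ * G q x a b c 0

/-- **Q1 is false.**  For every `q ∈ (-1,1)` and all real `a, b, c` with `abc ≠ 0`, the identity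
fails for `n = 1` at every real `x` with `2x ≠ a + b + c - abc`. -/
theorem result (q : ℝ) (hq : -1 < q) (hq' : q < 1) (a b c : ℝ) (habc : a * b * c ≠ 0) (x : ℝ)
    (hx : 2 * x ≠ a + b + c - a * b * c) : ¬ Identity q x a b c 1 := by
  intro h
  unfold Identity at h
  have hq1 : 1 - q ≠ 0 := by
    intro h
    linarith
  have e1 : ∀ al : ℝ⟦X⟧, poch (C q) al 1 = 1 - al := by
    intro al
    simp [poch]
  have hb1 : qbinom q 1 0 = 1 := by
    unfold qbinom
    simp [poch, hq1]
  have hb2 : qbinom q 1 1 = 1 := by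
    unfold qbinom
    simp [poch, hq1]
  have haw : AW q x a b c 1 = C (-a) * ((1 - C b * C c) * (1 - C b * X) * (1 - C c * X)) *
      (1 - C a * C b * C c * X)⁻¹ + (2 * C x - (C b + C c + X - C b * C c * X)) := by
    unfold AW
    rw [Finset.sum_range_succ, Finset.sum_range_one]
    unfold awTerm
    rw [hb1, hb2]
    simp only [Nat.sub_zero, Nat.sub_self, e1, pow_zero, pow_one, mul_one, one_mul]
    simp [poch, psi, dd]
  set A : ℝ⟦X⟧ := 1 - C a * C b * C c * X with hA
  set D : ℝ⟦X⟧ := (1 - C a * X) * (1 - C b * X) * (1 - C c * X) with hD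
  have hAc : constantCoeff A ≠ 0 := by simp [hA]
  have hDc : constantCoeff D ≠ 0 := by simp [hD]
  have hAA : A⁻¹ * A = 1 := PowerSeries.inv_mul_cancel A hAc
  have hDD : D⁻¹ * D = 1 := PowerSeries.inv_mul_cancel D hDc
  rw [haw, e1, e1, e1, ← hD] at h
  have h2 : G q x a b c 1 * D * A = (C (-a) * ((1 - C b * C c) * (1 - C b * X) * (1 - C c * X)) +
      (2 * C x - (C b + C c + X - C b * C c * X)) * A) * G q x a b c 0 := by
    rw [h]
    linear_combination ((C (-a) * ((1 - C b * C c) * (1 - C b * X) * (1 - C c * X)) * A⁻¹ +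
      (2 * C x - (C b + C c + X - C b * C c * X))) * G q x a b c 0 * A) * hDD +
      (C (-a) * ((1 - C b * C c) * (1 - C b * X) * (1 - C c * X)) * G q x a b c 0) * hAA
  -- compare the coefficients of `t`
  have h3 := congrArg (coeff 1) h2
  have hc1 : ∀ f g : ℝ⟦X⟧, coeff 1 (f * g) = coeff 0 f * coeff 1 g + coeff 1 f * coeff 0 g := by
    intro f g
    rw [coeff_mul, Finset.Nat.antidiagonal_succ]
    simp
  have hG0 : coeff 0 (G q x a b c 1) = 2 * x - (a + b + c - a * b * c) := by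
    simp [G, coeff_mk, psi, poch, dd]
  have hG1 : coeff 1 (G q x a b c 1) = psi q x a b c 2 / (1 - q) := by
    simp [G, coeff_mk, poch]
  have hG2 : coeff 0 (G q x a b c 0) = 1 := by
    simp [G, coeff_mk, psi, poch]
  have hG3 : coeff 1 (G q x a b c 0) = (2 * x - (a + b + c - a * b * c)) / (1 - q) := by
    simp [G, coeff_mk, psi, poch, dd]
  have hX0 : coeff 0 (X : ℝ⟦X⟧) = 0 := by simp
  have hX1 : coeff 1 (X : ℝ⟦X⟧) = 1 := by simp
  have hC0 : ∀ r : ℝ, coeff 0 (C r : ℝ⟦X⟧) = r := by simp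
  have hC1 : ∀ r : ℝ, coeff 1 (C r : ℝ⟦X⟧) = 0 := by
    intro r
    rw [coeff_C]
    simp
  have h10 : coeff 0 (1 : ℝ⟦X⟧) = 1 := by simp
  have h11 : coeff 1 (1 : ℝ⟦X⟧) = 0 := by
    rw [coeff_one]
    simp
  have hc0 : ∀ f g : ℝ⟦X⟧, coeff 0 (f * g) = coeff 0 f * coeff 0 g := by
    intro f g
    simp
  have h20 : coeff 0 (2 : ℝ⟦X⟧) = 2 := by
    rw [show (2 : ℝ⟦X⟧) = 1 + 1 by norm_num, map_add, h10]
    norm_num
  have h21 : coeff 1 (2 : ℝ⟦X⟧) = 0 := by
    rw [show (2 : ℝ⟦X⟧) = 1 + 1 by norm_num, map_add, h11]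
    norm_num
  have hpsi : psi q x a b c 2 = (2 * x - ((a + b + c) * q + a * b * c * (1 - q - q ^ 2))) *
      (2 * x - (a + b + c - a * b * c)) -
      (1 - q) * ((1 - a * b) * (1 - a * c) * (1 - b * c)) := by
    simp [psi, dd, ff]
  simp only [hD, hA, hc1, hc0, map_sub, map_add, hX0, hX1, hC0, hC1, h10, h11, h20, h21, hG0, hG1,
    hG2, hG3, hpsi] at h3
  have h4 : a * b * c * (2 + q) * (2 * x - (a + b + c - a * b * c)) = 0 := by
    field_simp at h3
    have h5 : (1 - q) * (a * b * c * (2 + q) * (2 * x - (a + b + c - a * b * c))) = 0 := by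
      linear_combination -h3
    exact (mul_eq_zero.1 h5).resolve_left hq1
  have h5 : a * b * c * (2 + q) ≠ 0 := mul_ne_zero habc (by linarith)
  exact (mul_ne_zero h5 (sub_ne_zero.2 hx)) h4

end Pool.Agent.Results.MP_93f727_an.Fails
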